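import Pool.Agent.Y186.RG.Cor

/-!
The property that all sparse subspaces yield only compact ghost projections passes backwards
along regular maps: bornologous maps with uniformly bounded fibres.

Part 1: arbitrary metric spaces `X`, `Y` and a bornologous map `f : Y → X` whose fibres have a
bounded number of points and such that preimages of balls are finite. Part 2: the last condition
is automatic if the balls of `X` are finite, in particular if `X` is uniformly locally finite.
Part 3: coarse embeddings of a uniformly locally finite space into an arbitrary metric space
(Q1). Part 4: invariance under coarse equivalence (Q2).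

The proof cuts the given ghost projection down to a subsequence of the blocks of the sparse
subspace whose images are far from each other (by means of the functional calculus in the uniform
Roe algebra), and uses the selection form of the Marcus-Spielman-Srivastava theorem of
`Pool.Agent.W676.Ghost` on the fibres of the map.
-/

namespace Pool.Agent.Results.MP_7884fa_an.RegularMaps

open Pool.Agent.W676.Ghost Pool.Agent.Y186.RG

theorem result :
    (∀ (X Y : Type) [MetricSpace X] [MetricSpace Y] (f : Y → X),
      Bornologous f → BoundedFibres f → FinitePreimages f →
        OnlyCompactGhosts X → OnlyCompactGhosts Y) ∧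
    (∀ (X Y : Type) [MetricSpace X] [MetricSpace Y],
      (∀ (x : X) (r : ℝ), (Metric.closedBall x r).Finite) → ∀ f : Y → X,
      Bornologous f → BoundedFibres f → OnlyCompactGhosts X → OnlyCompactGhosts Y) ∧
    (∀ (X Y : Type) [MetricSpace X] [MetricSpace Y], ULF Y → ∀ f : Y → X, CoarseEmb f →
      OnlyCompactGhosts X → OnlyCompactGhosts Y) ∧
    (∀ (X Y : Type) [MetricSpace X] [MetricSpace Y], ULF X → ULF Y → ∀ f : Y → X,
      CoarseEquiv f → (OnlyCompactGhosts X ↔ OnlyCompactGhosts Y)) :=
  ⟨fun _ _ _ _ _ h1 h2 h3 h => regular_thm h1 h2 h3 h,
    fun _ _ _ _ hX _ h1 h2 h => regular_thm h1 h2 (finitePreimages_of_balls hX h2) h,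
    fun _ _ _ _ hY _ hf h => coarse_thm hY hf h,
    fun _ _ _ _ hX hY _ hf => coarseEquiv_thm hX hY hf⟩

end Pool.Agent.Results.MP_7884fa_an.RegularMaps
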